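import Mathlib

set_option autoImplicit false
open Classical

namespace Pool.Agent.D0H13.ThreeGraph

/-- The class structure condition of a three-graph, relative to a colouring `c` of the vertices
by the two classes. -/
def Good {V : Type} [Fintype V] (c : V → Bool) (H : Finset (Finset V)) : Prop :=
  (∀ e ∈ H, e.card = 4 ∧ ∀ v ∈ e, (e.filter (fun w => c v = c w)).card = 2) ∧
    (∀ S : Finset V, S.card = 5 →
      (∀ v ∈ S, (S.filter (fun w => c v = c w)).card ≤ 3) →
      Even (H.filter (fun e => e ⊆ S)).card)

/-- hyperedges of the three-graph given by a bipartite graph `K` -/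
noncomputable def hyper {V : Type} [Fintype V] (c : V → Bool) (K : V → V → ZMod 2) :
    Finset (Finset V) :=
  Finset.univ.filter (fun e => (e.filter (fun v => c v = false)).card = 2 ∧
    (e.filter (fun v => c v = true)).card = 2 ∧
    ∑ x ∈ e.filter (fun v => c v = false), ∑ y ∈ e.filter (fun v => c v = true), K x y = 1)

theorem mem_hyper {V : Type} [Fintype V] (c : V → Bool) (K : V → V → ZMod 2) (e : Finset V) :
    e ∈ hyper c K ↔ ((e.filter (fun v => c v = false)).card = 2 ∧
    (e.filter (fun v => c v = true)).card = 2 ∧
    ∑ x ∈ e.filter (fun v => c v = false), ∑ y ∈ e.filter (fun v => c v = true), K x y = 1) := by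
  simp [hyper]

theorem card_split {V : Type} [Fintype V] (c : V → Bool) (e : Finset V) :
    (e.filter (fun v => c v = false)).card + (e.filter (fun v => c v = true)).card = e.card := by
  rw [← Finset.card_filter_add_card_filter_not (s := e) (fun v => c v = false)]
  congr 2
  ext v
  simp

theorem zmod2_cases (z : ZMod 2) : z = 0 ∨ z = 1 := by
  revert z; decide

theorem zmod2_add_self (z : ZMod 2) : z + z = 0 := by
  revert z; decide

theorem zmod2_ite (z : ZMod 2) : (if z = 1 then (1 : ZMod 2) else 0) = z := by
  revert z; decide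

/-- transfer of hyperedges along a map which preserves or swaps the classes and preserves `K` up
to switching -/
theorem mem_hyper_map {V W : Type} [Fintype V] [Fintype W] (c : V → Bool) (c' : W → Bool)
    (K : V → V → ZMod 2) (K' : W → W → ZMod 2) (f : V ↪ W) (ε : Bool)
    (hc : ∀ v, c' (f v) = xor (c v) ε) (a b : V → ZMod 2)
    (hs : ∀ x y, c' x ≠ c' y → K' x y = K' y x)
    (hK : ∀ x y, c x = false → c y = true → K' (f x) (f y) = K x y + (a x + b y))
    (e : Finset V) : e ∈ hyper c K ↔ e.map f ∈ hyper c' K' := by
  have hsum : (e.filter (fun v => c v = false)).card = 2 → (e.filter (fun v => c v = true)).card = 2 →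
      ∑ x ∈ e.filter (fun v => c v = false), ∑ y ∈ e.filter (fun v => c v = true), K' (f x) (f y)
        = ∑ x ∈ e.filter (fun v => c v = false), ∑ y ∈ e.filter (fun v => c v = true), K x y := by
    intro h1 h2
    have h3 : ∑ x ∈ e.filter (fun v => c v = false), ∑ y ∈ e.filter (fun v => c v = true),
        K' (f x) (f y) = ∑ x ∈ e.filter (fun v => c v = false), ∑ y ∈ e.filter (fun v => c v = true),
          (K x y + (a x + b y)) := by
      refine Finset.sum_congr rfl fun x hx => Finset.sum_congr rfl fun y hy => ?_
      exact hK x y (Finset.mem_filter.mp hx).2 (Finset.mem_filter.mp hy).2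
    rw [h3]
    simp only [Finset.sum_add_distrib, Finset.sum_const, h1, h2]
    simp only [two_smul, zmod2_add_self, add_zero, Finset.sum_const_zero]
  cases ε with
  | false =>
    have e0 : (e.map f).filter (fun v => c' v = false) = (e.filter (fun v => c v = false)).map f := by
      rw [Finset.filter_map]; congr 1; ext v; simp [hc]
    have e1 : (e.map f).filter (fun v => c' v = true) = (e.filter (fun v => c v = true)).map f := by
      rw [Finset.filter_map]; congr 1; ext v; simp [hc]
    rw [mem_hyper, mem_hyper, e0, e1]
    simp only [Finset.card_map, Finset.sum_map]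
    constructor
    · rintro ⟨h1, h2, h3⟩
      exact ⟨h1, h2, by rw [hsum h1 h2, h3]⟩
    · rintro ⟨h1, h2, h3⟩
      exact ⟨h1, h2, by rw [← hsum h1 h2, h3]⟩
  | true =>
    have e0 : (e.map f).filter (fun v => c' v = false) = (e.filter (fun v => c v = true)).map f := by
      rw [Finset.filter_map]; congr 1; ext v; simp [hc]
    have e1 : (e.map f).filter (fun v => c' v = true) = (e.filter (fun v => c v = false)).map f := by
      rw [Finset.filter_map]; congr 1; ext v; simp [hc]
    rw [mem_hyper, mem_hyper, e0, e1]
    simp only [Finset.card_map, Finset.sum_map]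
    have hsw : ∑ x ∈ e.filter (fun v => c v = true), ∑ y ∈ e.filter (fun v => c v = false),
        K' (f x) (f y) = ∑ x ∈ e.filter (fun v => c v = false), ∑ y ∈ e.filter (fun v => c v = true),
          K' (f x) (f y) := by
      rw [Finset.sum_comm]
      refine Finset.sum_congr rfl fun x hx => Finset.sum_congr rfl fun y hy => ?_
      apply hs
      rw [hc, hc, (Finset.mem_filter.mp hx).2, (Finset.mem_filter.mp hy).2]
      decide
    rw [hsw]
    constructor
    · rintro ⟨h1, h2, h3⟩
      exact ⟨h2, h1, by rw [hsum h1 h2, h3]⟩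
    · rintro ⟨h1, h2, h3⟩
      exact ⟨h2, h1, by rw [← hsum h2 h1, h3]⟩

/-- counting the hyperedges inside a 5-set -/
theorem count_five {V : Type} [Fintype V] (c : V → Bool) (H : Finset (Finset V))
    (h4 : ∀ e ∈ H, e.card = 4) (hcl : ∀ e ∈ H, ∀ b, (e.filter (fun w => c w = b)).card = 2)
    (S : Finset V) (hS : S.card = 5) (b : Bool) (h3 : (S.filter (fun v => c v = b)).card = 3) :
    (H.filter (fun e => e ⊆ S)).card =
      ((S.filter (fun v => c v = b)).filter (fun v => S.erase v ∈ H)).card := by
  have himg : H.filter (fun e => e ⊆ S) =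
      ((S.filter (fun v => c v = b)).filter (fun v => S.erase v ∈ H)).image (fun v => S.erase v) := by
    ext e
    simp only [Finset.mem_filter, Finset.mem_image]
    constructor
    · rintro ⟨he, hes⟩
      have hc1 : (S \ e).card = 1 := by
        rw [Finset.card_sdiff_of_subset hes, hS, h4 e he]
      obtain ⟨v, hv⟩ := Finset.card_eq_one.mp hc1
      have hvm : v ∈ S \ e := by rw [hv]; exact Finset.mem_singleton_self v
      rw [Finset.mem_sdiff] at hvm
      have heq : S.erase v = e := by
        rw [Finset.erase_eq, ← hv, Finset.sdiff_sdiff_eq_self hes]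
      refine ⟨v, ⟨⟨hvm.1, ?_⟩, by rw [heq]; exact he⟩, heq⟩
      by_contra hcv
      have h5 := hcl e he b
      rw [← heq, Finset.filter_erase, Finset.erase_eq_of_notMem (by
        simp [hcv])] at h5
      omega
    · rintro ⟨v, ⟨⟨hv1, hv2⟩, hv3⟩, rfl⟩
      exact ⟨hv3, Finset.erase_subset _ _⟩
  rw [himg, Finset.card_image_of_injOn]
  intro v hv w hw hvw
  simp only [Finset.coe_filter, Finset.mem_filter, Set.mem_ofPred_eq] at hv hw
  by_contra hne
  have : v ∈ S.erase w := Finset.mem_erase.mpr ⟨hne, hv.1.1⟩
  simp only at hvw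
  rw [← hvw] at this
  exact (Finset.notMem_erase v S) this

theorem hyper_card {V : Type} [Fintype V] (c : V → Bool) (K : V → V → ZMod 2) (e : Finset V)
    (he : e ∈ hyper c K) : e.card = 4 := by
  rw [mem_hyper] at he
  rw [← card_split c e, he.1, he.2.1]

theorem hyper_class {V : Type} [Fintype V] (c : V → Bool) (K : V → V → ZMod 2) (e : Finset V)
    (he : e ∈ hyper c K) (b : Bool) : (e.filter (fun w => c w = b)).card = 2 := by
  rw [mem_hyper] at he
  cases b
  · exact he.1
  · exact he.2.1

/-- from the sizes: a five-element set with at most three elements in each class -/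
theorem five_split {V : Type} [Fintype V] (c : V → Bool) (S : Finset V) (hS : S.card = 5)
    (h : ∀ v ∈ S, (S.filter (fun w => c v = c w)).card ≤ 3) :
    ∃ b, (S.filter (fun v => c v = b)).card = 3 ∧ (S.filter (fun v => c v = !b)).card = 2 := by
  have hsp := card_split c S
  rw [hS] at hsp
  have hle : ∀ b, (S.filter (fun v => c v = b)).card ≤ 3 := by
    intro b
    rcases Finset.eq_empty_or_nonempty (S.filter (fun v => c v = b)) with h0 | ⟨v, hv⟩
    · rw [h0]; simp
    · rw [Finset.mem_filter] at hv
      have := h v hv.1
      rw [hv.2] at this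
      convert this using 3
      exact eq_comm
  have h1 := hle true
  have h2 := hle false
  rcases Nat.lt_or_ge (S.filter (fun v => c v = true)).card 3 with h3 | h3
  · exact ⟨false, by omega, by simp only [Bool.not_false]; omega⟩
  · exact ⟨true, by omega, by simp only [Bool.not_true]; omega⟩

theorem sum_pair_erase {V : Type} (T : Finset V) (v : V) (hv : v ∈ T) (R : V → ZMod 2) :
    ∑ u ∈ T.erase v, R u = ∑ u ∈ T, R u + R v := by
  rw [← Finset.add_sum_erase T R hv]
  have := zmod2_add_self (R v)
  calc ∑ u ∈ T.erase v, R u = ∑ u ∈ T.erase v, R u + (R v + R v) := by rw [this, add_zero]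
    _ = _ := by ring

/-- `hyper c K` defines a three-graph -/
theorem good_hyper {V : Type} [Fintype V] (c : V → Bool) (K : V → V → ZMod 2) :
    Good c (hyper c K) := by
  refine ⟨fun e he => ⟨hyper_card c K e he, fun v _ => ?_⟩, ?_⟩
  · have := hyper_class c K e he (c v)
    convert this using 3
    exact eq_comm
  · intro S hS h
    obtain ⟨b, hb3, hb2⟩ := five_split c S hS h
    rw [count_five c _ (hyper_card c K) (hyper_class c K) S hS b hb3]
    rw [← ZMod.natCast_eq_zero_iff_even]
    cases b with
    | false =>
      simp only [Bool.not_false] at hb2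
      set R : V → ZMod 2 := fun x => ∑ y ∈ S.filter (fun v => c v = true), K x y with hR
      have hmem : ∀ v ∈ S.filter (fun v => c v = false), (S.erase v ∈ hyper c K ↔
          ∑ u ∈ S.filter (fun v => c v = false), R u + R v = 1) := by
        intro v hv
        have hv' := Finset.mem_filter.mp hv
        rw [mem_hyper, Finset.filter_erase, Finset.filter_erase,
          Finset.card_erase_of_mem hv, hb3,
          Finset.erase_eq_of_notMem (s := S.filter (fun v => c v = true)) (by simp [hv'.2]), hb2]
        simp only [Nat.add_one_sub_one, true_and]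
        rw [show (∑ x ∈ (S.filter (fun v => c v = false)).erase v,
          ∑ y ∈ S.filter (fun v => c v = true), K x y) = ∑ x ∈ (S.filter (fun v => c v = false)).erase v, R x from rfl,
          sum_pair_erase _ v hv]
      rw [Finset.card_filter]
      push_cast
      have h1 : ∑ v ∈ S.filter (fun v => c v = false), (if S.erase v ∈ hyper c K then (1 : ZMod 2) else 0)
          = ∑ v ∈ S.filter (fun v => c v = false), (∑ u ∈ S.filter (fun v => c v = false), R u + R v) := by
        refine Finset.sum_congr rfl fun v hv => ?_
        rw [if_congr (hmem v hv) rfl rfl, zmod2_ite]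
      rw [h1, Finset.sum_add_distrib, Finset.sum_const, hb3]
      generalize ∑ u ∈ S.filter (fun v => c v = false), R u = z
      revert z; decide
    | true =>
      simp only [Bool.not_true] at hb2
      set R : V → ZMod 2 := fun y => ∑ x ∈ S.filter (fun v => c v = false), K x y with hR
      have hmem : ∀ v ∈ S.filter (fun v => c v = true), (S.erase v ∈ hyper c K ↔
          ∑ u ∈ S.filter (fun v => c v = true), R u + R v = 1) := by
        intro v hv
        have hv' := Finset.mem_filter.mp hv
        rw [mem_hyper, Finset.filter_erase, Finset.filter_erase,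
          Finset.card_erase_of_mem hv, hb3,
          Finset.erase_eq_of_notMem (s := S.filter (fun v => c v = false)) (by simp [hv'.2]), hb2]
        simp only [Nat.add_one_sub_one, true_and]
        rw [Finset.sum_comm]
        rw [show (∑ y ∈ (S.filter (fun v => c v = true)).erase v,
          ∑ x ∈ S.filter (fun v => c v = false), K x y) = ∑ x ∈ (S.filter (fun v => c v = true)).erase v, R x from rfl,
          sum_pair_erase _ v hv]
      rw [Finset.card_filter]
      push_cast
      have h1 : ∑ v ∈ S.filter (fun v => c v = true), (if S.erase v ∈ hyper c K then (1 : ZMod 2) else 0)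
          = ∑ v ∈ S.filter (fun v => c v = true), (∑ u ∈ S.filter (fun v => c v = true), R u + R v) := by
        refine Finset.sum_congr rfl fun v hv => ?_
        rw [if_congr (hmem v hv) rfl rfl, zmod2_ite]
      rw [h1, Finset.sum_add_distrib, Finset.sum_const, hb3]
      generalize ∑ u ∈ S.filter (fun v => c v = true), R u = z
      revert z; decide

/-- indicator of a hyperedge -/
noncomputable def ind {V : Type} [Fintype V] (H : Finset (Finset V)) (x x' y y' : V) : ZMod 2 :=
  if ({x, x', y, y'} : Finset V) ∈ H then 1 else 0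

section
variable {V : Type} [Fintype V] {c : V → Bool} {H : Finset (Finset V)}

theorem good_class (hG : Good c H) (e : Finset V) (he : e ∈ H) (b : Bool) :
    (e.filter (fun w => c w = b)).card = 2 := by
  obtain ⟨h4, h2⟩ := hG.1 e he
  obtain ⟨v, hv⟩ := Finset.card_pos.mp (show 0 < e.card by omega)
  have h3 := h2 v hv
  have hsp := card_split c e
  rcases Bool.eq_false_or_eq_true (c v) with hc | hc
  · rw [hc] at h3
    have h5 : (e.filter (fun w => c w = true)).card = 2 := by
      convert h3 using 3
      exact eq_comm
    cases b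
    · omega
    · exact h5
  · rw [hc] at h3
    have h5 : (e.filter (fun w => c w = false)).card = 2 := by
      convert h3 using 3
      exact eq_comm
    cases b
    · exact h5
    · omega

theorem ind_self_left (hG : Good c H) (x y y' : V) : ind H x x y y' = 0 := by
  unfold ind
  rw [if_neg]
  intro h
  have h1 := (hG.1 _ h).1
  have h2 : ({x, x, y, y'} : Finset V).card ≤ 3 := by
    rw [Finset.insert_eq_of_mem (Finset.mem_insert_self _ _)]
    exact Finset.card_le_three
  omega

theorem ind_self_right (hG : Good c H) (x x' y : V) : ind H x x' y y = 0 := by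
  unfold ind
  rw [if_neg]
  intro h
  have h1 := (hG.1 _ h).1
  have h2 : ({x, x', y, y} : Finset V).card ≤ 3 := by
    rw [Finset.pair_eq_singleton]
    exact Finset.card_le_three
  omega

theorem ind_swap (x x' y y' : V) : ind H x x' y y' = ind H y y' x x' := by
  unfold ind
  have : ({x, x', y, y'} : Finset V) = {y, y', x, x'} := by
    rw [Finset.insert_comm x' y, Finset.insert_comm x y, Finset.pair_comm x' y',
      Finset.insert_comm x y']
  rw [this]

theorem ind_comm_left (x x' y y' : V) : ind H x x' y y' = ind H x' x y y' := by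
  unfold ind
  rw [Finset.insert_comm]

/-- cocycle identity -/
theorem cocycle (hG : Good c H) (b : Bool) (x1 x2 x3 y y' : V) (h1 : c x1 = b) (h2 : c x2 = b)
    (h3 : c x3 = b) (hy : c y = !b) (hy' : c y' = !b) :
    ind H x1 x2 y y' + ind H x2 x3 y y' + ind H x1 x3 y y' = 0 := by
  by_cases hyy : y = y'
  · subst hyy
    simp only [ind_self_right hG, add_zero]
  by_cases h12 : x1 = x2
  · subst h12
    rw [ind_self_left hG, zero_add, zmod2_add_self]
  by_cases h23 : x2 = x3
  · subst h23
    rw [ind_self_left hG, add_zero, zmod2_add_self]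
  by_cases h13 : x1 = x3
  · subst h13
    rw [ind_self_left hG, add_zero, ind_comm_left x2 x1, zmod2_add_self]
  have hxy : ∀ x z : V, c x = b → c z = !b → x ≠ z := by
    rintro x z hx hz rfl
    rw [hx] at hz
    revert hz; cases b <;> decide
  set S : Finset V := {x1, x2, x3, y, y'} with hS
  have e1 := hxy x1 y h1 hy
  have e2 := hxy x1 y' h1 hy'
  have e3 := hxy x2 y h2 hy
  have e4 := hxy x2 y' h2 hy'
  have e5 := hxy x3 y h3 hy
  have e6 := hxy x3 y' h3 hy'
  have hSc : S.card = 5 := by
    rw [hS, Finset.card_insert_of_notMem, Finset.card_insert_of_notMem,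
      Finset.card_insert_of_notMem, Finset.card_pair hyy]
    · simp [e5, e6]
    · simp [h23, e3, e4]
    · simp [h12, h13, e1, e2]
  have hSb : S.filter (fun v => c v = b) = {x1, x2, x3} := by
    ext v
    simp only [hS, Finset.mem_filter, Finset.mem_insert, Finset.mem_singleton]
    constructor
    · rintro ⟨h | h | h | h | h, hc⟩
      · exact Or.inl h
      · exact Or.inr (Or.inl h)
      · exact Or.inr (Or.inr h)
      · subst h; exact absurd rfl (hxy v v hc hy)
      · subst h; exact absurd rfl (hxy v v hc hy')
    · rintro (h | h | h)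
      · subst h; exact ⟨Or.inl rfl, h1⟩
      · subst h; exact ⟨Or.inr (Or.inl rfl), h2⟩
      · subst h; exact ⟨Or.inr (Or.inr (Or.inl rfl)), h3⟩
  have hb3 : (S.filter (fun v => c v = b)).card = 3 := by
    rw [hSb, Finset.card_insert_of_notMem, Finset.card_pair h23]
    simp [h12, h13]
  have hsp := card_split c S
  have hcase : ∀ v ∈ S, (S.filter (fun w => c v = c w)).card ≤ 3 := by
    intro v _
    have h5 : (S.filter (fun w => c v = c w)).card = (S.filter (fun w => c w = c v)).card := by
      congr 1
      ext w
      simp only [Finset.mem_filter, and_congr_right_iff]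
      intro _
      exact eq_comm
    rw [h5]
    cases b <;> rcases Bool.eq_false_or_eq_true (c v) with hc | hc <;> rw [hc] <;> omega
  have heven := hG.2 S hSc hcase
  rw [count_five c H (fun e he => (hG.1 e he).1) (good_class hG) S hSc b hb3, hSb,
    ← ZMod.natCast_eq_zero_iff_even, Finset.card_filter] at heven
  push_cast at heven
  rw [Finset.sum_insert (by simp [h12, h13]), Finset.sum_pair h23] at heven
  have f1 : S.erase x1 = {x2, x3, y, y'} := by
    rw [hS, Finset.erase_insert]
    simp [h12, h13, e1, e2]
  have f2 : S.erase x2 = {x1, x3, y, y'} := by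
    rw [hS, Finset.insert_comm x1 x2, Finset.erase_insert]
    simp [Ne.symm h12, h23, e3, e4]
  have f3 : S.erase x3 = {x1, x2, y, y'} := by
    have : S = {x3, x1, x2, y, y'} := by
      rw [hS, Finset.insert_comm x2 x3, Finset.insert_comm x1 x3]
    rw [this, Finset.erase_insert]
    simp [Ne.symm h13, Ne.symm h23, e5, e6]
  rw [f1, f2, f3] at heven
  unfold ind
  refine Eq.trans ?_ heven
  ring

/-- every three-graph comes from a bipartite graph -/
theorem exists_K (hG : Good c H) : ∃ K : V → V → ZMod 2, (∀ x y, K x y = K y x) ∧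
    H = hyper c K := by
  by_cases hX : ∃ x0, c x0 = false
  swap
  · refine ⟨fun _ _ => 0, fun _ _ => rfl, ?_⟩
    ext e
    constructor
    · intro he
      have h1 := good_class hG e he false
      obtain ⟨v, hv⟩ := Finset.card_pos.mp (show 0 < (e.filter (fun w => c w = false)).card by omega)
      exact absurd ⟨v, (Finset.mem_filter.mp hv).2⟩ hX
    · intro he
      have h1 := hyper_class _ _ e he false
      obtain ⟨v, hv⟩ := Finset.card_pos.mp (show 0 < (e.filter (fun w => c w = false)).card by omega)
      exact absurd ⟨v, (Finset.mem_filter.mp hv).2⟩ hX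
  by_cases hY : ∃ y0, c y0 = true
  swap
  · refine ⟨fun _ _ => 0, fun _ _ => rfl, ?_⟩
    ext e
    constructor
    · intro he
      have h1 := good_class hG e he true
      obtain ⟨v, hv⟩ := Finset.card_pos.mp (show 0 < (e.filter (fun w => c w = true)).card by omega)
      exact absurd ⟨v, (Finset.mem_filter.mp hv).2⟩ hY
    · intro he
      have h1 := hyper_class _ _ e he true
      obtain ⟨v, hv⟩ := Finset.card_pos.mp (show 0 < (e.filter (fun w => c w = true)).card by omega)
      exact absurd ⟨v, (Finset.mem_filter.mp hv).2⟩ hY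
  obtain ⟨x0, hx0⟩ := hX
  obtain ⟨y0, hy0⟩ := hY
  let K : V → V → ZMod 2 := fun x y =>
    if c x = false then ind H x0 x y0 y else ind H x0 y y0 x
  let K' : V → V → ZMod 2 := fun x y => if c x = c y then 0 else K x y
  refine ⟨K', ?_, ?_⟩
  · intro x y
    simp only [K', K]
    rcases Bool.eq_false_or_eq_true (c x) with h1 | h1 <;>
      rcases Bool.eq_false_or_eq_true (c y) with h2 | h2 <;> simp [h1, h2]
  · have key : ∀ x x' y y', c x = false → c x' = false → c y = true → c y' = true →
        ind H x x' y y' = K' x y + K' x y' + (K' x' y + K' x' y') := by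
      intro x x' y y' hx hx' hy hy'
      have hK : ∀ x y, c x = false → c y = true → K' x y = ind H x0 x y0 y := by
        intro x y hx hy
        simp [K', K, hx, hy]
      rw [hK x y hx hy, hK x y' hx hy', hK x' y hx' hy, hK x' y' hx' hy']
      have c1 := cocycle hG false x0 x x' y y' hx0 hx hx' hy hy'
      have c2 := cocycle hG true y0 y y' x0 x hy0 hy hy' hx0 hx
      have c3 := cocycle hG true y0 y y' x0 x' hy0 hy hy' hx0 hx'
      rw [ind_swap y0 y x0 x, ind_swap y y' x0 x, ind_swap y0 y' x0 x] at c2
      rw [ind_swap y0 y x0 x', ind_swap y y' x0 x', ind_swap y0 y' x0 x'] at c3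
      generalize ind H x0 x y y' = a1 at *
      generalize ind H x x' y y' = a2 at *
      generalize ind H x0 x' y y' = a3 at *
      generalize ind H x0 x y0 y = a4 at *
      generalize ind H x0 x y0 y' = a5 at *
      generalize ind H x0 x' y0 y = a6 at *
      generalize ind H x0 x' y0 y' = a7 at *
      revert a1 a2 a3 a4 a5 a6 a7
      decide
    ext e
    have hgen : (e.filter (fun v => c v = false)).card = 2 →
        (e.filter (fun v => c v = true)).card = 2 → (e ∈ H ↔ ∑ x ∈ e.filter (fun v => c v = false),
          ∑ y ∈ e.filter (fun v => c v = true), K' x y = 1) := by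
      intro h1 h2
      obtain ⟨x, x', hxx, hX⟩ := Finset.card_eq_two.mp h1
      obtain ⟨y, y', hyy, hY⟩ := Finset.card_eq_two.mp h2
      have hx : c x = false := (Finset.mem_filter.mp (show x ∈ e.filter (fun v => c v = false) by
        rw [hX]; simp)).2
      have hx' : c x' = false := (Finset.mem_filter.mp (show x' ∈ e.filter (fun v => c v = false) by
        rw [hX]; simp)).2
      have hy : c y = true := (Finset.mem_filter.mp (show y ∈ e.filter (fun v => c v = true) by
        rw [hY]; simp)).2
      have hy' : c y' = true := (Finset.mem_filter.mp (show y' ∈ e.filter (fun v => c v = true) by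
        rw [hY]; simp)).2
      have he : e = {x, x', y, y'} := by
        have h3 : e = e.filter (fun v => c v = false) ∪ e.filter (fun v => c v = true) := by
          ext v
          simp only [Finset.mem_union, Finset.mem_filter]
          rcases Bool.eq_false_or_eq_true (c v) with h | h <;> simp [h]
        rw [h3, hX, hY]
        ext v
        simp only [Finset.mem_union, Finset.mem_insert, Finset.mem_singleton]
        tauto
      rw [hX, hY, Finset.sum_pair hxx, Finset.sum_pair hyy, Finset.sum_pair hyy,
        ← key x x' y y' hx hx' hy hy', he]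
      unfold ind
      split_ifs with h <;> simp [h]
    constructor
    · intro he
      have h1 := good_class hG e he false
      have h2 := good_class hG e he true
      rw [mem_hyper]
      exact ⟨h1, h2, (hgen h1 h2).mp he⟩
    · intro he
      rw [mem_hyper] at he
      exact (hgen he.1 he.2.1).mpr he.2.2

theorem mem_hyper_four {K : V → V → ZMod 2} {x x' y y' : V} (hx : c x = false) (hx' : c x' = false)
    (hy : c y = true) (hy' : c y' = true) (hxx : x ≠ x') (hyy : y ≠ y') :
    ({x, x', y, y'} : Finset V) ∈ hyper c K ↔ K x y + K x y' + (K x' y + K x' y') = 1 := by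
  have h1 : ({x, x', y, y'} : Finset V).filter (fun v => c v = false) = {x, x'} := by
    ext v
    simp only [Finset.mem_filter, Finset.mem_insert, Finset.mem_singleton]
    constructor
    · rintro ⟨h | h | h | h, hc⟩
      · exact Or.inl h
      · exact Or.inr h
      · rw [h, hy] at hc; exact absurd hc (by decide)
      · rw [h, hy'] at hc; exact absurd hc (by decide)
    · rintro (h | h)
      · exact ⟨Or.inl h, by rw [h, hx]⟩
      · exact ⟨Or.inr (Or.inl h), by rw [h, hx']⟩
  have h2 : ({x, x', y, y'} : Finset V).filter (fun v => c v = true) = {y, y'} := by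
    ext v
    simp only [Finset.mem_filter, Finset.mem_insert, Finset.mem_singleton]
    constructor
    · rintro ⟨h | h | h | h, hc⟩
      · rw [h, hx] at hc; exact absurd hc (by decide)
      · rw [h, hx'] at hc; exact absurd hc (by decide)
      · exact Or.inl h
      · exact Or.inr h
    · rintro (h | h)
      · exact ⟨Or.inr (Or.inr (Or.inl h)), by rw [h, hy]⟩
      · exact ⟨Or.inr (Or.inr (Or.inr h)), by rw [h, hy']⟩
  rw [mem_hyper, h1, h2, Finset.card_pair hxx, Finset.card_pair hyy, Finset.sum_pair hxx,
    Finset.sum_pair hyy, Finset.sum_pair hyy]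
  simp

/-- an injective partial map extends to a permutation -/
theorem exists_perm (T : Finset V) (p : V → V) (hp : Set.InjOn p T) :
    ∃ π : Equiv.Perm V, ∀ x ∈ T, π x = p x := by
  obtain ⟨g, hg⟩ := Finset.exists_equiv_extend_of_card_eq (α := V) (β := V)
    (t := (Finset.univ : Finset V)) (by simp) (s := T) (f := p) (Finset.subset_univ _) hp
  refine ⟨g.trans ⟨fun z => z.1, fun z => ⟨z, Finset.mem_univ _⟩, fun _ => rfl, fun _ => rfl⟩, ?_⟩
  intro x hx
  exact hg x hx

theorem zsolve {A B : ZMod 2} (h : (A = 1) ↔ (B = 1)) : A = B := by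
  revert A B; decide

theorem exists_witness (c : V → Bool) (K : V → V → ZMod 2) (hKs : ∀ x y, K x y = K y x) :
    ∃ (W : Type) (_ : Fintype W) (c' : W → Bool) (K' : W → W → ZMod 2) (f : V ↪ W),
      (∀ x y, K' x y = K' y x) ∧ (∀ v, c' (f v) = c v) ∧
      (∀ x y, c x = false → c y = true → K' (f x) (f y) = K x y) ∧
      ∀ (S : Finset V) (p : V → V), Set.InjOn p (S : Set V) →
        (∀ x ∈ S, ∀ y ∈ S, (c x = c y ↔ c (p x) = c (p y))) →
        (∀ e ⊆ S, e ∈ hyper c K ↔ e.image p ∈ hyper c K) →
        ∃ (σ : W ≃ W) (ε : Bool) (a b : W → ZMod 2),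
          (∀ v, c' (σ v) = xor (c' v) ε) ∧
          (∀ x y, c' x = false → c' y = true → K' (σ x) (σ y) = K' x y + (a x + b y)) ∧
          ∀ x ∈ S, σ (f x) = f (p x) := by
  let χ : V → V → ZMod 2 := fun x => if c x = false then K x else 0
  refine ⟨Bool × V × (V → ZMod 2), inferInstance, fun w => w.1,
    fun u w => u.2.2 w.2.1 + w.2.2 u.2.1, ⟨fun x => (c x, x, χ x), ?_⟩, ?_, ?_, ?_, ?_⟩
  · intro x y hxy
    exact (Prod.ext_iff.1 (Prod.ext_iff.1 hxy).2).1
  · intro x y
    exact add_comm _ _
  · intro v
    rfl
  · intro x y hx hy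
    simp [χ, hx, hy]
  intro S p hp hc hH
  have hχ : ∀ x y, c x ≠ c y → χ x y + χ y x = K x y := by
    intro x y hxy
    rcases Bool.eq_false_or_eq_true (c x) with h1 | h1 <;>
      rcases Bool.eq_false_or_eq_true (c y) with h2 | h2
    · exact absurd (h1.trans h2.symm) hxy
    · simp [χ, h1, h2, hKs y x]
    · simp [χ, h1, h2]
    · exact absurd (h1.trans h2.symm) hxy
  -- the class permutation
  obtain ⟨ε, hε⟩ : ∃ ε, ∀ x ∈ S, c (p x) = xor (c x) ε := by
    rcases S.eq_empty_or_nonempty with h | ⟨x0, hx0⟩
    · exact ⟨false, by simp [h]⟩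
    · refine ⟨xor (c x0) (c (p x0)), fun x hx => ?_⟩
      have := hc x hx x0 hx0
      revert this
      generalize c x = a1
      generalize c x0 = a2
      generalize c (p x) = a3
      generalize c (p x0) = a4
      revert a1 a2 a3 a4
      decide
  -- the permutations
  have hπ : ∀ s : Bool, ∃ π : Equiv.Perm V, ∀ x ∈ S, c x = s → π x = p x := by
    intro s
    obtain ⟨π, hπ⟩ := exists_perm (S.filter (fun x => c x = s)) p
      (hp.mono (by intro x hx; simp only [Finset.coe_filter] at hx; exact hx.1))
    exact ⟨π, fun x hx hs => hπ x (Finset.mem_filter.mpr ⟨hx, hs⟩)⟩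
  choose π hπ using hπ
  -- the switching functions
  obtain ⟨a, b, hab⟩ : ∃ a b : V → ZMod 2, ∀ x ∈ S, ∀ y ∈ S, c x = false → c y = true →
      K x y + K (p x) (p y) = a x + b y := by
    have four : ∀ x ∈ S, ∀ x' ∈ S, ∀ y ∈ S, ∀ y' ∈ S, c x = false → c x' = false → c y = true →
        c y' = true → (K x y + K (p x) (p y)) + (K x y' + K (p x) (p y')) +
          ((K x' y + K (p x') (p y)) + (K x' y' + K (p x') (p y'))) = 0 := by
      intro x hx x' hx' y hy y' hy' cx cx' cy cy'
      by_cases hxx : x = x'
      · subst hxx; exact zmod2_add_self _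
      by_cases hyy : y = y'
      · subst hyy; rw [zmod2_add_self, zmod2_add_self, add_zero]
      have h1 := hH {x, x', y, y'} (by
        intro v hv
        simp only [Finset.mem_insert, Finset.mem_singleton] at hv
        rcases hv with rfl | rfl | rfl | rfl <;> assumption)
      rw [mem_hyper_four cx cx' cy cy' hxx hyy] at h1
      have himg : ({x, x', y, y'} : Finset V).image p = {p x, p x', p y, p y'} := by
        simp only [Finset.image_insert, Finset.image_singleton]
      have hpxx : p x ≠ p x' := fun h => hxx (hp hx hx' h)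
      have hpyy : p y ≠ p y' := fun h => hyy (hp hy hy' h)
      have h2 : ({p x, p x', p y, p y'} : Finset V) ∈ hyper c K ↔
          K (p x) (p y) + K (p x) (p y') + (K (p x') (p y) + K (p x') (p y')) = 1 := by
        cases ε with
        | false =>
          refine mem_hyper_four ?_ ?_ ?_ ?_ hpxx hpyy
          · rw [hε x hx, cx]; rfl
          · rw [hε x' hx', cx']; rfl
          · rw [hε y hy, cy]; rfl
          · rw [hε y' hy', cy']; rfl
        | true =>
          have hset : ({p x, p x', p y, p y'} : Finset V) = {p y, p y', p x, p x'} := by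
            rw [Finset.insert_comm (p x') (p y), Finset.insert_comm (p x) (p y),
              Finset.pair_comm (p x') (p y'), Finset.insert_comm (p x) (p y')]
          rw [hset, mem_hyper_four (by rw [hε y hy, cy]; rfl) (by rw [hε y' hy', cy']; rfl)
            (by rw [hε x hx, cx]; rfl) (by rw [hε x' hx', cx']; rfl) hpyy hpxx,
            hKs (p y) (p x), hKs (p y) (p x'), hKs (p y') (p x), hKs (p y') (p x')]
          have : K (p x) (p y) + K (p x') (p y) + (K (p x) (p y') + K (p x') (p y')) =
            K (p x) (p y) + K (p x) (p y') + (K (p x') (p y) + K (p x') (p y')) := by ring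
          rw [this]
      rw [himg, h2] at h1
      have h3 := zsolve h1
      have h4 : (K x y + K (p x) (p y)) + (K x y' + K (p x) (p y')) +
          ((K x' y + K (p x') (p y)) + (K x' y' + K (p x') (p y'))) =
          (K x y + K x y' + (K x' y + K x' y')) +
          (K (p x) (p y) + K (p x) (p y') + (K (p x') (p y) + K (p x') (p y'))) := by ring
      rw [h4, h3, zmod2_add_self]
    by_cases h0 : ∃ x0 ∈ S, c x0 = false
    swap
    · refine ⟨0, 0, ?_⟩
      intro x hx y hy cx cy
      exact absurd ⟨x, hx, cx⟩ h0
    by_cases h1 : ∃ y0 ∈ S, c y0 = true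
    swap
    · refine ⟨0, 0, ?_⟩
      intro x hx y hy cx cy
      exact absurd ⟨y, hy, cy⟩ h1
    obtain ⟨x0, hx0, cx0⟩ := h0
    obtain ⟨y0, hy0, cy0⟩ := h1
    refine ⟨fun x => K x y0 + K (p x) (p y0), fun y => (K x0 y + K (p x0) (p y)) +
      (K x0 y0 + K (p x0) (p y0)), ?_⟩
    intro x hx y hy cx cy
    have := four x hx x0 hx0 y hy y0 hy0 cx cx0 cy cy0
    revert this
    beta_reduce
    generalize K x y + K (p x) (p y) = a1
    generalize K x y0 + K (p x) (p y0) = a2
    generalize K x0 y + K (p x0) (p y) = a3
    generalize K x0 y0 + K (p x0) (p y0) = a4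
    revert a1 a2 a3 a4
    decide
  let P : Bool → V → V → ZMod 2 := fun s x y => χ x y + χ (p x) (π (!s) y)
  let G : Bool → V → V → ZMod 2 := fun s u w =>
    if s = false then
      (if u ∈ S ∧ c u = false then P false u w else
        if w ∈ S ∧ c w = true then P true w u + (a u + b w) else 0)
    else
      (if u ∈ S ∧ c u = true then P true u w else
        (if w ∈ S ∧ c w = false then P false w u else 0) + (a w + b u))
  have hG : ∀ x y, G false x y + G true y x = a x + b y := by
    intro x y
    simp only [G, if_true, Bool.true_eq_false, if_false]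
    by_cases h1 : x ∈ S ∧ c x = false <;> by_cases h2 : y ∈ S ∧ c y = true
    · rw [if_pos h1, if_pos h2]
      simp only [P, Bool.not_false, Bool.not_true]
      rw [hπ true y h2.1 h2.2, hπ false x h1.1 h1.2, ← hab x h1.1 y h2.1 h1.2 h2.2,
        ← hχ x y (by rw [h1.2, h2.2]; decide), ← hχ (p x) (p y) (by
          rw [hε x h1.1, hε y h2.1, h1.2, h2.2]; cases ε <;> decide)]
      ring
    · rw [if_pos h1, if_neg h2, if_pos h1, ← add_assoc, zmod2_add_self, zero_add]
    · rw [if_neg h1, if_pos h2, if_pos h2, add_right_comm, zmod2_add_self, zero_add]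
    · rw [if_neg h1, if_neg h2, if_neg h2, if_neg h1, zero_add, zero_add]
  have hGS : ∀ x ∈ S, ∀ y, G (c x) x y = χ x y + χ (p x) (π (!(c x)) y) := by
    intro x hx y
    rcases Bool.eq_false_or_eq_true (c x) with h1 | h1
    · rw [h1]
      simp only [G, Bool.true_eq_false, if_false]
      rw [if_pos ⟨hx, h1⟩]
    · rw [h1]
      simp only [G, if_true]
      rw [if_pos ⟨hx, h1⟩]
  let σ : Bool × V × (V → ZMod 2) → Bool × V × (V → ZMod 2) := fun w =>
    (xor w.1 ε, π w.1 w.2.1, fun z => w.2.2 ((π (!w.1)).symm z) + G w.1 w.2.1 ((π (!w.1)).symm z))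
  have hσ : Function.Injective σ := by
    rintro ⟨s, x, φ⟩ ⟨s', x', φ'⟩ h
    simp only [σ, Prod.mk.injEq] at h
    obtain ⟨h1, h2, h3⟩ := h
    have hs : s = s' := by
      revert h1; cases s <;> cases s' <;> cases ε <;> decide
    subst hs
    have hx := (π s).injective h2
    subst hx
    have hφ : φ = φ' := by
      funext z
      have := congrFun h3 (π (!s) z)
      simp only [Equiv.symm_apply_apply] at this
      exact add_right_cancel this
    rw [hφ]
  refine ⟨Equiv.ofBijective σ (Finite.injective_iff_bijective.mp hσ), ε, fun w => a w.2.1,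
    fun w => b w.2.1, ?_, ?_, ?_⟩
  · intro v
    rfl
  · rintro ⟨s, x, φ⟩ ⟨s', y, ψ⟩ hs hs'
    simp only at hs hs'
    subst hs hs'
    simp only [Equiv.ofBijective_apply, σ, Bool.not_false, Bool.not_true,
      Equiv.symm_apply_apply]
    rw [← hG x y]
    ring
  · intro x hx
    simp only [Equiv.ofBijective_apply, σ, Function.Embedding.coeFn_mk, Prod.mk.injEq]
    refine ⟨(hε x hx).symm, hπ (c x) x hx rfl, ?_⟩
    funext z
    rw [hGS x hx, Equiv.apply_symm_apply, ← add_assoc, zmod2_add_self, zero_add]

end

end Pool.Agent.D0H13.ThreeGraph
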